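import Mathlib
import Pool.Agent.V5helper7.TF.Defs
import Pool.Agent.V5helper7.TF.Strategy
import Pool.Agent.V5helper7.TF.Sound

/-!
# The value of the Toads and Frogs position `T^7 E^7 F^6` is neither `1` nor `1*`

In fact `T^7 E^7 F^6 > 1`: Left wins `T^7 E^7 F^6 - 1` moving first and moving second.
-/

namespace Pool.Agent.Results.MP_a6e7b1_co.Disproof

open V5helper7.TF V5helper7.TF.PG V5helper7.TF.Cell

theorem inTable_start : InTable (start 7) 1 :=
  ⟨by decide, le_refl 1, 0, by norm_num, by rw [pos_zero]; decide⟩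

theorem inTable_next : InTable
    [T, T, T, T, T, T, E, T, E, E, E, E, E, E, F, F, F, F, F, F] 1 :=
  ⟨by decide, le_refl 1, 1, by norm_num, by rw [pos_one]; decide⟩

theorem move_start : LeftMove (start 7)
    [T, T, T, T, T, T, E, T, E, E, E, E, E, E, F, F, F, F, F, F] :=
  LeftMove.slide [T, T, T, T, T, T] [E, E, E, E, E, E, F, F, F, F, F, F]

/-- Left wins `T^7 E^7 F^6 - 1` both moving second and moving first (so the value exceeds `1`);
the value of `T^7 E^7 F^6` equals neither `1` nor `1* = 1 + * = {1 | 1}`, so it is not true that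
for every `a ≥ 1` the value of `T^a E^a F^(a-1)` equals `1` or `1*`. -/
theorem result :
    (LeftWinsSecond (add (game (start 7)) (neg one)) ∧
      LeftWinsFirst (add (game (start 7)) (neg one)) ∧
      ¬ Equal (game (start 7)) one ∧ ¬ Equal (game (start 7)) (add one star) ∧
      ¬ Equal (game (start 7)) (PG.mk Unit Unit (fun _ => one) (fun _ => one))) ∧
    ¬ ∀ a : ℕ, 1 ≤ a → (Equal (game (start a)) one ∨ Equal (game (start a)) (add one star)) := by
  have h := main closed_inTable inTable_start inTable_next move_start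
  refine ⟨h, fun h' => ?_⟩
  rcases h' 7 (by norm_num) with h1 | h1
  · exact h.2.2.1 h1
  · exact h.2.2.2.1 h1

end Pool.Agent.Results.MP_a6e7b1_co.Disproof
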